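import Mathlib
import Pool.Agent.PatSturm.Statement
import Pool.Agent.PatSturm.Final

/-! Classification of the recurrent pattern Sturmian sequences, double-sided and single-sided. -/

set_option autoImplicit false

namespace Pool.Agent.Results.MP_2825c1_co.PatternSturmianClasses

open Pool.Agent.PatSturm.Statement

/-- A double-sided (respectively single-sided) sequence over any alphabet is recurrent and pattern
Sturmian if and only if it is obtained, by naming the two letters, from (the restriction to the
positive integers of) an interval coding of an irrational rotation or an arc-Toeplitz sequence. -/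
theorem result :
    (∀ {A : Type} (x : ℤ → A), (Recurrent x ∧ PatternSturmian x) ↔
      ∃ (p q : A) (X : ℤ → Bool), p ≠ q ∧ (IntervalCoding X ∨ ArcToeplitz X) ∧
        ∀ m : ℤ, x m = if X m = true then p else q) ∧
    (∀ {A : Type} (x : ℕ → A), (Recurrent₁ x ∧ PatternSturmian₁ x) ↔
      ∃ (p q : A) (X : ℤ → Bool), p ≠ q ∧ (IntervalCoding X ∨ ArcToeplitz X) ∧
        ∀ m : ℕ, 1 ≤ m → x m = if X m = true then p else q) :=
  Pool.Agent.PatSturm.Final.full_result Pool.Agent.PatSturm.Final.main_holds

end Pool.Agent.Results.MP_2825c1_co.PatternSturmianClasses
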